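import Pool.Agent.Work.MP_e31007_co.Proof

namespace Pool.Agent.Results.MP_e31007_co.ExactMax

open Pool.Agent.Work.MP_e31007_co

/-- For every `n ≥ 3` the maximum of `R(G) + α(G)` over connected graphs on `n` vertices is
`max_{0 ≤ a < n} (a + sqrt (a (n - a)))`, and the conjectured inequality
`R(G) + α(G) ≤ n - 1 + sqrt (n - 1)` holds for all connected graphs on `n` vertices
exactly when `n ≤ 10`. -/
theorem result (n : ℕ) (hn : 3 ≤ n) :
    IsGreatest {x : ℝ | ∃ G : SimpleGraph (Fin n), G.Connected ∧ x = randic G + G.indepNum}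
      (⨆ a : Fin n, ((a : ℝ) + √((a : ℝ) * ((n : ℝ) - (a : ℝ))))) ∧
    ((∀ G : SimpleGraph (Fin n), G.Connected →
        randic G + G.indepNum ≤ (n : ℝ) - 1 + √((n : ℝ) - 1)) ↔ n ≤ 10) := by
  refine ⟨⟨attained hn, ?_⟩, ?_⟩
  · rintro x ⟨G, hG, rfl⟩
    exact upper hn G hG
  · rw [← threshold hn]
    constructor
    · intro h
      obtain ⟨G, hG, hx⟩ := attained hn
      rw [hx]
      exact h G hG
    · intro h G hG
      exact (upper hn G hG).trans h

end Pool.Agent.Results.MP_e31007_co.ExactMax
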